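import Pool.Agent.H56CQ.Final

set_option autoImplicit false
open scoped Manifold

namespace Pool.Agent.Results.MP_94265d_al.CentralQuotients

open Pool.Agent.H56CQ

/-- Let `Γ` be a finitely generated subgroup of a connected Lie group `G` whose intersection `A`
with the centre of `G` is finitely generated (for lattices both conditions are classical facts).
The following are equivalent:

* for every subgroup `D` of `A`, the group `Γ / D` (when `Γ` is a lattice and `D` is discrete this
  is a lattice in the connected Lie group `G / D`) is linear if and only if it is residually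
  finite;
* the largest residually finite quotient `Γ / Res Γ` of `Γ` is linear;
* every element of `A` that has finite order in all finite dimensional representations of `Γ` in
  characteristic zero has a positive power in `Res Γ`. -/
theorem result (n : ℕ) (G : Type) [TopologicalSpace G] [Group G] [IsTopologicalGroup G]
    [ChartedSpace (EuclideanSpace ℝ (Fin n)) G]
    [LieGroup (𝓡 n) ((⊤ : ℕ∞) : WithTop ℕ∞) G] [ConnectedSpace G]
    (Γ : Subgroup G) (hΓ : Group.FG Γ) (hA : (Γ ⊓ Subgroup.center G).FG) :
    [QuestionForQuotients Γ ((Subgroup.center G).subgroupOf Γ),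
      IsLinearGroup (Γ ⧸ Res Γ),
      ∀ a : Γ, (a : G) ∈ Subgroup.center G → RepTorsion a →
        ∃ k : ℕ, 1 ≤ k ∧ a ^ k ∈ Res Γ].TFAE :=
  lie_tfae n G Γ hΓ hA

end Pool.Agent.Results.MP_94265d_al.CentralQuotients
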