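import Pool.Agent.H56CQ.Final

set_option autoImplicit false
open scoped Manifold

namespace Pool.Agent.Results.MP_94265d_al.LeviReduction

open Pool.Agent.H56CQ

/-- Let `Γ` be a finitely generated subgroup of a connected Lie group `G` whose intersection `A`
with the centre of `G` is finitely generated. Suppose that a subgroup of finite index of `Γ` is a
semidirect product of a normal subgroup `N` of `Γ` and of the direct product of finitely many
subgroups `M i`, and that `Γ` has a finite dimensional representation over a field of
characteristic zero whose kernel meets `N` in a finite group. Then the question has a positive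
answer for all the quotients of `Γ` by subgroups of `A` if and only if, for every `i`, it has a
positive answer for all the quotients of `M i` by subgroups of `A ∩ M i`. -/
theorem result (n : ℕ) (G : Type) [TopologicalSpace G] [Group G] [IsTopologicalGroup G]
    [ChartedSpace (EuclideanSpace ℝ (Fin n)) G]
    [LieGroup (𝓡 n) ((⊤ : ℕ∞) : WithTop ℕ∞) G] [ConnectedSpace G]
    (Γ : Subgroup G) (hΓ : Group.FG Γ) (hA : (Γ ⊓ Subgroup.center G).FG)
    (N : Subgroup Γ) (hN : N.Normal) (k : ℕ) (M : Fin k → Subgroup Γ)
    (hcomm : ∀ i j, i ≠ j → ∀ x ∈ M i, ∀ y ∈ M j, x * y = y * x) (hind : iSupIndep M)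
    (hMN : (⨆ i, M i) ⊓ N = ⊥) (hfin : ((⨆ i, M i) ⊔ N).FiniteIndex)
    (K : Type) [Field K] [CharZero K] (m : ℕ) (φ : Γ →* Matrix.GeneralLinearGroup (Fin m) K)
    (hφ : ((φ.ker ⊓ N : Subgroup Γ) : Set Γ).Finite) :
    QuestionForQuotients Γ ((Subgroup.center G).subgroupOf Γ) ↔
      ∀ i, QuestionForQuotients (M i) (((Subgroup.center G).subgroupOf Γ).subgroupOf (M i)) := by
  rw [question_iff hΓ]
  rw [levi_iff hΓ (center_central G Γ) (center_fg G Γ hA) (linKer_center_subgroupOf n Γ) M hcomm
    hind hMN (R := φ.ker) ⟨m, φ, rfl⟩ hφ]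
  exact forall_congr' fun i => (question_iff (factor_fg hΓ M hcomm hind hMN i)).symm

end Pool.Agent.Results.MP_94265d_al.LeviReduction
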