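import Pool.Agent.H56CQ.Final

set_option autoImplicit false
open scoped Manifold

namespace Pool.Agent.Results.MP_94265d_al.VanishingCohomology

open Pool.Agent.H56CQ

/-- Let `Γ` be a finitely generated subgroup of a connected Lie group `G` whose intersection `A`
with the centre of `G` is finitely generated, and suppose that the first cohomology of `Γ` with
coefficients in every finite dimensional representation in characteristic zero vanishes. Then the
question has a positive answer for all the quotients of `Γ` by subgroups of `A` if and only if the
finite residual of `Γ` has finite index in `A` (more precisely, meets `A` in a subgroup of finite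
index of `A`). -/
theorem result (n : ℕ) (G : Type) [TopologicalSpace G] [Group G] [IsTopologicalGroup G]
    [ChartedSpace (EuclideanSpace ℝ (Fin n)) G]
    [LieGroup (𝓡 n) ((⊤ : ℕ∞) : WithTop ℕ∞) G] [ConnectedSpace G]
    (Γ : Subgroup G) (hΓ : Group.FG Γ) (hA : (Γ ⊓ Subgroup.center G).FG)
    (hH : H1Vanish Γ) :
    QuestionForQuotients Γ ((Subgroup.center G).subgroupOf Γ) ↔
      (Res Γ).relIndex ((Subgroup.center G).subgroupOf Γ) ≠ 0 := by
  rw [question_iff hΓ]
  exact quotLinear_iff_of_h1 hΓ (center_central G Γ) (center_fg G Γ hA)
    (linKer_center_subgroupOf n Γ) hH

end Pool.Agent.Results.MP_94265d_al.VanishingCohomology
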